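import Pool.Agent.helper94.SCT.Defs

/-!
# Project FI (MP_ad8ced_nt, theorem B), block PP: from the mean value to a positive proportion

RULES.  File `Pool/Agent/<seat>/FIP/XX.lean`, `import Pool.Agent.helper94.FIP.Spec`, `namespace Pool.Agent.FIP`,
`theorem XX (h1 : YY_stmt) ... : XX_stmt`, auxiliary lemmas prefixed `XX_` and private where possible.  Never change this file.
If a statement is wrong tell helper94 at once.  No `convert`/`congr!`, no `native_decide`, no straight double quotes.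
`ff n = ∏_{l ∣ n} (1 + 1/l)` (helper94/SCT/Defs.lean).
-/

set_option autoImplicit false

namespace Pool.Agent.FIP

open Finset
open Pool.Agent.SCT (ff)

/-- the number of the primes `p` in `(x, 2x]` with `8p² - a²` prime -/
def cta (x a : ℕ) : ℕ := #((Ioc x (2 * x)).filter fun p => p.Prime ∧ (8 * p ^ 2 - a ^ 2).Prime)

/-- **M8** (short; Mertens for the primes `≡ ±1 mod 8`, lower bound).  `G2_stmt` of project GD (statement in Pool/Agent/helper8/GD/Spec.lean, proved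
there; look for GD/G1.lean, GD/G2.lean; `Qs` = primes `≡ ±1 mod 8` of an interval) with `u = 2`, or partial summation from `G1_stmt`. -/
def M8_stmt : Prop := ∃ C : ℝ, 0 < C ∧ ∀ v : ℕ, 2 ≤ v → Real.log (Real.log v) - C ≤
  ∑ l ∈ (Icc 1 v).filter (fun l => l.Prime ∧ (l % 8 = 1 ∨ l % 8 = 7)), 2 / (l : ℝ)

/-- **PSV** (medium; sieve bound for every odd `a`).  From M8.  `interval_sieve 3` (Pool/Agent/Lib/SieveInterval.lean), `H = x`, with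
`C l = {c < l : c = 0 or l ∣ 8c² - a²}` (`8c² - a²` in `ℤ`): `#C l ≤ 3`, `#C l < l` (for `l = 2` and `l ∣ a` only `c = 0`; `l ≡ ±3 mod 8`, `l ∤ a`: `8c² ≡ a²` is
insoluble, only `c = 0`; `l ≡ ±1 mod 8`, `l ∤ a`: `2` is a square modulo `l`, `#C l = 3`; `ZMod.exists_sq_eq_two_iff`).  `Z = Z r` with
`Z^(2B₀) ≤ x < Z^(4B₀)`.  A prime `n` in `(x, 2x]` with `8n² - a²` prime is not in `C l` modulo `l` for `l ≤ Z` (`n > Z`, `8n² - a² ≥ 7x² > Z`), so it is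
sifted.  Product: `∏_{l ≤ Z} (1-1/l) ∏_{l ≤ Z, l ≡ ±1, l ∤ a} (1-3/l)/(1-1/l)`, `(1-3/l)/(1-1/l) ≤ e^(-2/l)`; `∏_{l ≤ Z} (1-1/l) ≤ C/log Z`
(`∏ (1-1/l)⁻¹ ≥ ∑_{n ≤ Z} 1/n`), `∑_{l ≤ Z, l ≡ ±1} 2/l ≥ log log Z - C` (M8), and `∏_{l ∣ a} e^(2/l) ≤ C ff(a)²` since
`2 log(1+1/l) ≥ 2/l - 1/l²`. -/
def PSV_stmt : Prop := ∃ (C : ℝ) (x₀ : ℕ), 0 < C ∧ ∀ x : ℕ, x₀ ≤ x → ∀ a : ℕ, Odd a → a ≤ x →
  (cta x a : ℝ) ≤ C * x / Real.log x ^ 2 * ff a ^ 2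

/-- **PFA** (short, medium).  `(1+1/l)^4 ≤ 1 + 15/l`, `ff a ^ 4 ≤ ∑_{d ∣ a, d squarefree} ∏_{l ∣ d} 15/l`, sum over `a ≤ A`:
`≤ A ∏_{l ≤ A} (1 + 15/l²) ≤ C A` (the same as row FFA of project SCT). -/
def PFA_stmt : Prop := ∃ C : ℝ, 0 < C ∧ ∀ A : ℕ, ∑ a ∈ Icc 1 A, ff a ^ 4 ≤ C * A

/-- the mean value over the odd `a ≤ A` has the right order -/
def PMV_stmt : Prop := ∃ c : ℝ, 0 < c ∧ ∀ K : ℕ, ∃ x₀ : ℕ, ∀ x : ℕ, x₀ ≤ x → ∀ A : ℕ,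
  (x : ℝ) / Real.log x ^ K ≤ A → A ≤ x →
  c * (A * x / Real.log x ^ 2) ≤ ∑ a ∈ (Icc 1 A).filter Odd, (cta x a : ℝ)

/-- **PPA** (short, medium).  From PSV, PFA, PMV.  `∑_a cta² ≤ C A x²/log⁴ x`; the `a` with `cta < c' x/log² x`, `c' = c/2`, contribute at most half of the
sum; Cauchy-Schwarz for the others. -/
def PPA_stmt : Prop := ∃ c : ℝ, 0 < c ∧ ∀ K : ℕ, ∃ x₀ : ℕ, ∀ x : ℕ, x₀ ≤ x → ∀ A : ℕ,
  (x : ℝ) / Real.log x ^ K ≤ A → A ≤ x →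
  c * A ≤ #((Icc 1 A).filter fun a => Odd a ∧ c * (x / Real.log x ^ 2) ≤ cta x a)

end Pool.Agent.FIP
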